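import Pool.Agent.W574.CN.Gen
import Pool.Agent.W574.HS.Form

set_option autoImplicit false
set_option linter.unusedSectionVars false

/-! # The poles of the topological zeta function of an ideal generated by forms in three
variables -/

namespace Pool.Agent.W574.CN

open MvPolynomial Pool.Agent.W574.SM Pool.Agent.W574.HS

theorem mem_Reg_of_denom (s0 : ℂ) (x : RatFunc ℂ) (hx : x.denom.eval s0 ≠ 0) : x ∈ Reg s0 :=
  ⟨x.num, x.denom, hx, (RatFunc.num_div_denom x).symm⟩

variable {ι : Type} [Fintype ι] [DecidableEq ι]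

/-- **The strong monodromy conjecture for ideals generated by forms of the same degree in three
variables**, up to the pole `-3/d`; and including this pole, if three of the forms are
algebraically independent. -/
theorem cone_main (f : ι → MvPolynomial (Fin 3) ℂ) (d : ℕ) (hd : 0 < d)
    (hf : ∀ j, (f j).IsHomogeneous d) (b : Polynomial ℂ) (hb : IsFunctionalEq f b)
    (Z : RatFunc ℂ) (hZ : ConeZeta f d Z) (s0 : ℂ) (hs0 : Z.denom.eval s0 = 0)
    (h : s0 ≠ -3 / d ∨ ∃ e : Fin 3 → ι,
      (Matrix.of fun s t => pderiv s (f (e t))).det ≠ 0) : b.eval s0 = 0 := by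
  by_contra hne
  obtain ⟨Zc, hZc, rfl⟩ := hZ
  apply Reg_denom s0 _ ?_ hs0
  have hdc : (d : ℂ) ≠ 0 := Nat.cast_ne_zero.2 hd.ne'
  refine (Reg s0).mul_mem (Subring.sum_mem _ fun i _ => mem_Reg_of_denom s0 _ ?_)
    (fac_mem d 3 s0 ?_)
  · intro h0
    exact hne (plane_main _ b (functionalEq_deh i f d hf b hb) _ (hZc i) s0 h0)
  · intro h0
    have h1 : s0 = -3 / d := by
      rw [eq_div_iff hdc]
      push_cast at h0
      linear_combination h0
    rcases h with h | ⟨e, he⟩
    · exact h h1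
    · apply hne
      have h2 := generic_root f d hd hf b hb e he
      have h3 : -(((2 : ℕ) : ℂ) + 1) / d = -3 / d := by push_cast; ring
      rw [h1, ← h3]
      exact h2

/-- **The strong monodromy conjecture for the hypersurfaces `∑ y_j f_j(x₀, x₁, x₂) = 0`**, where
the `f_j` are forms of the same degree. -/
theorem cone_form_main (f : ι → MvPolynomial (Fin 3) ℂ) (d : ℕ) (hd : 0 < d)
    (hf : ∀ j, (f j).IsHomogeneous d) (hf0 : ∃ j, f j ≠ 0) (b : Polynomial ℂ)
    (hb : Pool.Agent.H628R4.TP.IsBFunction (univ f) b)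
    (Z : RatFunc ℂ) (hZ : ConeFormZeta f d Z) (s0 : ℂ) (hs0 : Z.denom.eval s0 = 0)
    (h : s0 ≠ -3 / d ∨ ∃ e : Fin 3 → ι,
      (Matrix.of fun s t => pderiv s (f (e t))).det ≠ 0) : b.eval s0 = 0 := by
  classical
  obtain ⟨Z', hZ', rfl⟩ := hZ
  by_contra hne
  apply Reg_denom s0 _ ?_ hs0
  refine (Reg s0).mul_mem (mem_Reg_of_denom s0 _ ?_) ?_
  · intro h0
    exact hne (cone_main f d hd hf b (functionalEq_of_univ f b hb) Z' hZ' s0 h0 h)
  · have h1 : (RatFunc.X + 1 : RatFunc ℂ)⁻¹ = fac 1 1 := by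
      rw [fac, Nat.cast_one, one_mul, one_div, add_comm]
    rw [h1]
    refine fac_mem 1 1 s0 ?_
    intro h0
    have h4 : s0 = -1 := by
      push_cast at h0
      linear_combination h0
    obtain ⟨P, hP⟩ := hb
    apply hne
    rw [h4]
    refine minus_one (univ f) 1 (univ_ne_zero f hf0) (univ_not_unit f) b P fun s => ?_
    rw [one_mul]
    exact hP s

end Pool.Agent.W574.CN
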