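import Pool.Agent.W574.SM.ZetaDefs

set_option autoImplicit false

/-! # The topological zeta function of an ideal generated by forms in three variables -/

namespace Pool.Agent.W574.CN

open MvPolynomial Pool.Agent.W574.SM

section Deh

variable {n : ℕ}

/-- the substitution `x_i = 1`; the other variables keep their order -/
noncomputable def deh (i : Fin (n + 1)) :
    MvPolynomial (Fin (n + 1)) ℂ →ₐ[ℂ] MvPolynomial (Fin n) ℂ :=
  aeval (Fin.insertNth i (1 : MvPolynomial (Fin n) ℂ) X)

end Deh

/-- `Z` is (of the form of) the topological zeta function of the ideal `I = (f_j)` of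
`ℂ[x₀, x₁, x₂]` which is generated by forms `f_j` of degree `d`:
`Z = (Z₀ + Z₁ + Z₂) / (d s + 3)`, where `Z_i` is a sum of contributions of the ideal
`(f_j |_{x_i = 1})` of `ℂ[u, v]`, see `PlaneZeta`.

Explanation. The blow-up of the origin of `ℂ ^ 3` is the total space `X'` of the line bundle
`O(-1)` over the projective plane `P ^ 2`, and on `X'` the ideal `I` is `O(-d E)`, `E = P ^ 2` the
exceptional divisor, times the pull-back of an ideal sheaf `J` on `P ^ 2`, which is locally the
dehomogenization of `I`. If `Y → P ^ 2` is a log resolution of `J` by blow-ups of points, then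
`X' ×_{P ^ 2} Y` is a log resolution of `I`. The divisor `E` has the numerical data `(d, 3)`,
because the canonical divisor of the blow-up of a point of a threefold is `2 E`. The strata which
are not contained in the transform of `E` are fibred by `ℂ ^ *` and have the Euler characteristic
`0`. Hence `Z_I = Z_J / (d s + 3)`, where `Z_J` is the integral over the points of `P ^ 2` of the
contributions of the points; it is a sum of three terms, for the points with `x₂ ≠ 0`, for the
points with `x₂ = 0`, `x₁ ≠ 0` and for the point `x₂ = x₁ = 0`, which are of the form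
`PlaneZeta`. -/
def ConeZeta {ι : Type} (f : ι → MvPolynomial (Fin 3) ℂ) (d : ℕ) (Z : RatFunc ℂ) : Prop :=
  ∃ Zc : Fin 3 → RatFunc ℂ, (∀ i, PlaneZeta (fun j => deh i (f j)) (Zc i)) ∧
    Z = (∑ i, Zc i) * fac d 3

/-- `Z` is (of the form of) the topological zeta function of the polynomial
`F = ∑ y_j f_j(x₀, x₁, x₂)` in the variables `x₀, x₁, x₂` and `y_j`, where the `f_j` are forms of
degree `d`: `Z = Z_I / (s + 1)`, where `Z_I` is the topological zeta function of the ideal
`I = (f_j)`, see `ConeZeta`.

If `Y → ℂ ^ 3` is a log resolution of the ideal `I = (f_j)`, then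
`Y × ℂ ^ ι → ℂ ^ 3 × ℂ ^ ι` is an embedded resolution of `F = 0`: locally on `Y` the ideal is
generated by one of the `f_j`, so that `F` is `f_j` times `y_j + ∑_{i ≠ j} g_i y_i` with regular
functions `g_i`, and the zero locus `H` of the second factor is smooth and crosses the
`E × ℂ ^ ι` transversally. It contributes the numbers `(1, 1)`, and over each point of `Y` the
fibre of `H` is a hyperplane, with the Euler characteristic `1`, and the complement of the
hyperplane has the Euler characteristic `0`. -/
def ConeFormZeta {ι : Type} (f : ι → MvPolynomial (Fin 3) ℂ) (d : ℕ) (Z : RatFunc ℂ) : Prop :=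
  ∃ Z' : RatFunc ℂ, ConeZeta f d Z' ∧ Z = Z' * (RatFunc.X + 1)⁻¹

end Pool.Agent.W574.CN
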