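import Pool.Agent.W574.HS.Conv
import Pool.Agent.W574.CN.Defs

set_option autoImplicit false
set_option linter.unusedSectionVars false

/-! # Dehomogenization of functional equations of ideals generated by forms -/

namespace Pool.Agent.W574.CN

open MvPolynomial Pool.Agent.W574.SM Pool.Agent.W574.HS

section HomZ

variable {σ : Type}

/-- homogeneous of the degree `N ∈ ℤ` (or zero) -/
def HomZ (N : ℤ) (g : MvPolynomial σ ℂ) : Prop :=
  g = 0 ∨ ∃ m : ℕ, (m : ℤ) = N ∧ g.IsHomogeneous m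

theorem homZ_zero (N : ℤ) : HomZ N (0 : MvPolynomial σ ℂ) := Or.inl rfl

theorem homZ_smul {N : ℤ} {g : MvPolynomial σ ℂ} (h : HomZ N g) (c : ℂ) : HomZ N (c • g) := by
  rcases h with rfl | ⟨m, hm, h⟩
  · rw [smul_zero]; exact homZ_zero N
  · refine Or.inr ⟨m, hm, ?_⟩
    exact (homogeneousSubmodule σ ℂ m).smul_mem c h

theorem homZ_X_mul {N : ℤ} {g : MvPolynomial σ ℂ} (h : HomZ N g) (i : σ) :
    HomZ (N + 1) (X i * g) := by
  rcases h with rfl | ⟨m, hm, h⟩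
  · rw [mul_zero]; exact homZ_zero _
  · refine Or.inr ⟨m + 1, by push_cast; rw [hm], ?_⟩
    rw [add_comm]
    exact (isHomogeneous_X ℂ i).mul h

theorem homZ_pderiv {N : ℤ} {g : MvPolynomial σ ℂ} (h : HomZ N g) (i : σ) :
    HomZ (N - 1) (pderiv i g) := by
  rcases h with rfl | ⟨m, hm, h⟩
  · rw [map_zero]; exact homZ_zero _
  · rcases m with _ | m
    · left
      rw [totalDegree_eq_zero_iff_eq_C.1 (Nat.le_zero.1 h.totalDegree_le), pderiv_C]
    · refine Or.inr ⟨m, by push_cast at hm; linarith, ?_⟩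
      exact h.pderiv

theorem homZ_euler [Fintype σ] {N : ℤ} {g : MvPolynomial σ ℂ} (h : HomZ N g) :
    ∑ i : σ, X i * pderiv i g = (N : ℂ) • g := by
  rcases h with rfl | ⟨m, hm, h⟩
  · simp
  · rw [h.sum_X_mul_pderiv, ← hm]
    rw [← Nat.cast_smul_eq_nsmul ℂ]
    push_cast
    rfl

end HomZ

section PO

variable {σ : Type}

/-- families of operators `∑ p_k(D) R_k`, with polynomials `p_k` and `R_k` in the Weyl algebra -/
def PO (Φ : ℤ → Module.End ℂ (MvPolynomial σ ℂ)) : Prop :=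
  ∃ (κ : Type) (_ : Fintype κ) (p : κ → Polynomial ℂ) (R : κ → weyl σ),
    ∀ D, Φ D = ∑ k, (p k).eval (D : ℂ) • (R k : Module.End ℂ (MvPolynomial σ ℂ))

theorem po_const (Q : weyl σ) : PO (fun _ => (Q : Module.End ℂ (MvPolynomial σ ℂ))) :=
  ⟨Unit, inferInstance, fun _ => 1, fun _ => Q, fun D => by simp⟩

theorem po_add {Φ Ψ : ℤ → Module.End ℂ (MvPolynomial σ ℂ)} (h1 : PO Φ) (h2 : PO Ψ) :
    PO (fun D => Φ D + Ψ D) := by
  obtain ⟨κ1, i1, p1, R1, h1⟩ := h1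
  obtain ⟨κ2, i2, p2, R2, h2⟩ := h2
  refine ⟨κ1 ⊕ κ2, inferInstance, Sum.elim p1 p2, Sum.elim R1 R2, fun D => ?_⟩
  beta_reduce
  rw [Fintype.sum_sum_type, h1, h2]
  rfl

theorem po_mul {Φ Ψ : ℤ → Module.End ℂ (MvPolynomial σ ℂ)} (h1 : PO Φ) (h2 : PO Ψ) :
    PO (fun D => Φ D * Ψ D) := by
  obtain ⟨κ1, i1, p1, R1, h1⟩ := h1
  obtain ⟨κ2, i2, p2, R2, h2⟩ := h2
  refine ⟨κ1 × κ2, inferInstance, fun k => p1 k.1 * p2 k.2, fun k => R1 k.1 * R2 k.2, fun D => ?_⟩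
  beta_reduce
  rw [h1, h2, Finset.sum_mul_sum, Fintype.sum_prod_type]
  refine Finset.sum_congr rfl fun k _ => Finset.sum_congr rfl fun l _ => ?_
  rw [smul_mul_smul_comm, Polynomial.eval_mul]
  rfl

theorem po_poly {Φ : ℤ → Module.End ℂ (MvPolynomial σ ℂ)} (h : PO Φ) (q : Polynomial ℂ) :
    PO (fun D => q.eval (D : ℂ) • Φ D) := by
  obtain ⟨κ, i, p, R, h⟩ := h
  refine ⟨κ, i, fun k => q * p k, R, fun D => ?_⟩
  beta_reduce
  rw [h, Finset.smul_sum]
  refine Finset.sum_congr rfl fun k _ => ?_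
  rw [smul_smul, Polynomial.eval_mul]

theorem po_shift {Φ : ℤ → Module.End ℂ (MvPolynomial σ ℂ)} (h : PO Φ) (w : ℤ) :
    PO (fun D => Φ (D + w)) := by
  obtain ⟨κ, i, p, R, h⟩ := h
  refine ⟨κ, i, fun k => (p k).comp (Polynomial.X + Polynomial.C (w : ℂ)), R, fun D => ?_⟩
  beta_reduce
  rw [h]
  refine Finset.sum_congr rfl fun k _ => ?_
  rw [Polynomial.eval_comp]
  simp

theorem po_neg {Φ : ℤ → Module.End ℂ (MvPolynomial σ ℂ)} (h : PO Φ) : PO (fun D => - Φ D) := by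
  have h1 : (fun D => - Φ D) = fun D : ℤ => (-1 : Polynomial ℂ).eval (D : ℂ) • Φ D := by
    funext D
    rw [Polynomial.eval_neg, Polynomial.eval_one]
    refine LinearMap.ext fun g => ?_
    rw [LinearMap.neg_apply, LinearMap.smul_apply, neg_smul, one_smul]
  rw [h1]
  exact po_poly h (-1)

end PO

section Deh

variable {n : ℕ}

theorem deh_self (i : Fin (n + 1)) : deh i (X i) = 1 := by
  rw [deh, aeval_X, Fin.insertNth_apply_same]

theorem deh_succAbove (i : Fin (n + 1)) (t : Fin n) : deh i (X (i.succAbove t)) = X t := by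
  rw [deh, aeval_X, Fin.insertNth_apply_succAbove]

theorem deh_pderiv (i : Fin (n + 1)) (t : Fin n) (g : MvPolynomial (Fin (n + 1)) ℂ) :
    deh i (pderiv (i.succAbove t) g) = pderiv t (deh i g) := by
  induction g using MvPolynomial.induction_on with
  | C a => rw [pderiv_C, map_zero, algHom_C, algebraMap_eq, pderiv_C]
  | add p q hp hq => rw [map_add, map_add, hp, hq, map_add, map_add]
  | mul_X p k hp =>
    rw [Derivation.leibniz, smul_eq_mul, smul_eq_mul, map_add, map_mul, map_mul, map_mul, hp,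
      Derivation.leibniz, smul_eq_mul, smul_eq_mul]
    congr 2
    rcases Fin.eq_self_or_eq_succAbove i k with rfl | ⟨u, rfl⟩
    · rw [deh_self, Derivation.map_one_eq_zero, pderiv_X_of_ne (Fin.ne_succAbove k t), map_zero]
    · rw [deh_succAbove]
      by_cases h : u = t
      · subst h; rw [pderiv_X_self, pderiv_X_self, map_one]
      · rw [pderiv_X_of_ne h, pderiv_X_of_ne (fun h' => h (Fin.succAbove_right_injective h')),
          map_zero]

theorem deh_euler (i : Fin (n + 1)) {N : ℤ} {g : MvPolynomial (Fin (n + 1)) ℂ} (h : HomZ N g) :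
    deh i (pderiv i g) = (N : ℂ) • deh i g - ∑ t, X t * pderiv t (deh i g) := by
  have h1 := congrArg (deh i) (homZ_euler h)
  rw [map_sum, Fin.sum_univ_succAbove _ i, map_mul, deh_self, one_mul, map_smul] at h1
  rw [← h1, add_sub_assoc, ← Finset.sum_sub_distrib, Finset.sum_eq_zero, add_zero]
  intro t _
  rw [map_mul, deh_succAbove, deh_pderiv, sub_self]

/-- the operators which are graded, and whose graded parts are compatible with the
dehomogenization -/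
def GR (i : Fin (n + 1)) (Q : Module.End ℂ (MvPolynomial (Fin (n + 1)) ℂ)) : Prop :=
  ∃ (κ : Type) (_ : Fintype κ) (w : κ → ℤ) (Φ : κ → ℤ → Module.End ℂ (MvPolynomial (Fin n) ℂ)),
    (∀ k, PO (Φ k)) ∧ ∀ (D : ℤ) (g : MvPolynomial (Fin (n + 1)) ℂ), HomZ D g →
      ∃ q : κ → MvPolynomial (Fin (n + 1)) ℂ, Q g = ∑ k, q k ∧
        ∀ k, HomZ (D + w k) (q k) ∧ deh i (q k) = Φ k D (deh i g)

/-- the multiplication by a variable -/
theorem weyl_X {σ : Type} (t : σ) : (LinearMap.mulLeft ℂ (X t : MvPolynomial σ ℂ)) ∈ weyl σ :=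
  Algebra.subset_adjoin (Or.inl ⟨t, rfl⟩)

theorem weyl_d {σ : Type} (t : σ) : (((pderiv t : Derivation ℂ (MvPolynomial σ ℂ)
    (MvPolynomial σ ℂ)) : MvPolynomial σ ℂ →ₗ[ℂ] MvPolynomial σ ℂ)) ∈ weyl σ :=
  Algebra.subset_adjoin (Or.inr ⟨t, rfl⟩)

theorem gr_of_one (i : Fin (n + 1)) (Q : Module.End ℂ (MvPolynomial (Fin (n + 1)) ℂ)) (w : ℤ)
    (Φ : ℤ → Module.End ℂ (MvPolynomial (Fin n) ℂ)) (hΦ : PO Φ)
    (h : ∀ (D : ℤ) (g : MvPolynomial (Fin (n + 1)) ℂ), HomZ D g →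
      HomZ (D + w) (Q g) ∧ deh i (Q g) = Φ D (deh i g)) : GR i Q :=
  ⟨Unit, inferInstance, fun _ => w, fun _ => Φ, fun _ => hΦ, fun D g hg =>
    ⟨fun _ => Q g, by simp, fun _ => h D g hg⟩⟩

theorem gr_add (i : Fin (n + 1)) {Q1 Q2 : Module.End ℂ (MvPolynomial (Fin (n + 1)) ℂ)}
    (h1 : GR i Q1) (h2 : GR i Q2) : GR i (Q1 + Q2) := by
  obtain ⟨κ1, i1, w1, Φ1, hΦ1, h1⟩ := h1
  obtain ⟨κ2, i2, w2, Φ2, hΦ2, h2⟩ := h2
  refine ⟨κ1 ⊕ κ2, inferInstance, Sum.elim w1 w2, Sum.elim Φ1 Φ2, ?_, fun D g hg => ?_⟩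
  · rintro (k | k)
    · exact hΦ1 k
    · exact hΦ2 k
  · obtain ⟨q1, hq1, hq1'⟩ := h1 D g hg
    obtain ⟨q2, hq2, hq2'⟩ := h2 D g hg
    refine ⟨Sum.elim q1 q2, ?_, ?_⟩
    · rw [Fintype.sum_sum_type, LinearMap.add_apply, hq1, hq2]
      rfl
    · rintro (k | k)
      · exact hq1' k
      · exact hq2' k

theorem gr_mul (i : Fin (n + 1)) {Q1 Q2 : Module.End ℂ (MvPolynomial (Fin (n + 1)) ℂ)}
    (h1 : GR i Q1) (h2 : GR i Q2) : GR i (Q1 * Q2) := by
  obtain ⟨κ1, i1, w1, Φ1, hΦ1, h1⟩ := h1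
  obtain ⟨κ2, i2, w2, Φ2, hΦ2, h2⟩ := h2
  refine ⟨κ1 × κ2, inferInstance, fun k => w2 k.2 + w1 k.1, fun k D => Φ1 k.1 (D + w2 k.2) *
    Φ2 k.2 D, fun k => po_mul (po_shift (hΦ1 k.1) _) (hΦ2 k.2), fun D g hg => ?_⟩
  obtain ⟨q2, hq2, hq2'⟩ := h2 D g hg
  choose q1 hq1 hq1' using fun k : κ2 => h1 (D + w2 k) (q2 k) (hq2' k).1
  refine ⟨fun k => q1 k.2 k.1, ?_, ?_⟩
  · rw [Module.End.mul_apply, hq2, map_sum, Fintype.sum_prod_type_right]
    exact Finset.sum_congr rfl fun k _ => hq1 k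
  · rintro ⟨k, l⟩
    refine ⟨?_, ?_⟩
    · have := (hq1' l k).1
      rw [add_assoc] at this
      exact this
    · rw [(hq1' l k).2, (hq2' l).2]
      rfl

theorem gr_weyl (i : Fin (n + 1)) (Q : Module.End ℂ (MvPolynomial (Fin (n + 1)) ℂ))
    (hQ : Q ∈ weyl (Fin (n + 1))) : GR i Q := by
  induction hQ using Algebra.adjoin_induction with
  | mem Q hQ =>
    rcases hQ with ⟨k, rfl⟩ | ⟨k, rfl⟩
    · rcases Fin.eq_self_or_eq_succAbove i k with rfl | ⟨t, rfl⟩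
      · refine gr_of_one _ _ 1 _ (po_const 1) fun D g hg => ⟨homZ_X_mul hg _, ?_⟩
        rw [LinearMap.mulLeft_apply, map_mul, deh_self, one_mul]
        rfl
      · refine gr_of_one _ _ 1 _ (po_const ⟨_, weyl_X t⟩) fun D g hg => ⟨homZ_X_mul hg _, ?_⟩
        rw [LinearMap.mulLeft_apply, map_mul, deh_succAbove]
        rfl
    · rcases Fin.eq_self_or_eq_succAbove i k with rfl | ⟨t, rfl⟩
      · refine gr_of_one _ _ (-1) (fun D => (Polynomial.X : Polynomial ℂ).eval (D : ℂ) • 1 +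
          -(((∑ t : Fin n, (⟨_, weyl_X t⟩ : weyl (Fin n)) * ⟨_, weyl_d t⟩ : weyl (Fin n)) :
            Module.End ℂ (MvPolynomial (Fin n) ℂ))))
          (po_add (po_poly (po_const 1) _) (po_neg (po_const _))) fun D g hg =>
          ⟨homZ_pderiv hg _, ?_⟩
        change deh k (pderiv k g) = _
        rw [deh_euler k hg, LinearMap.add_apply, LinearMap.neg_apply, LinearMap.smul_apply,
          Polynomial.eval_X, ← sub_eq_add_neg]
        congr 1
        rw [AddSubmonoidClass.coe_finsetSum, LinearMap.sum_apply]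
        rfl
      · refine gr_of_one _ _ (-1) _ (po_const ⟨_, weyl_d t⟩) fun D g hg =>
          ⟨homZ_pderiv hg _, ?_⟩
        change deh i (pderiv (i.succAbove t) g) = _
        rw [deh_pderiv]
        rfl
  | algebraMap r =>
    refine gr_of_one _ _ 0 _ (po_const (algebraMap ℂ (weyl (Fin n)) r)) fun D g hg => ⟨?_, ?_⟩
    · rw [Module.algebraMap_end_apply, add_zero]
      exact homZ_smul hg r
    · rw [Module.algebraMap_end_apply, map_smul]
      rfl
  | add Q1 Q2 _ _ h1 h2 => exact gr_add i h1 h2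
  | mul Q1 Q2 _ _ h1 h2 => exact gr_mul i h1 h2

end Deh

end Pool.Agent.W574.CN
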