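import Pool.Agent.W574.CN.Deh

set_option autoImplicit false
set_option linter.unusedSectionVars false

/-! # Dehomogenization of functional equations of ideals generated by forms -/

namespace Pool.Agent.W574.CN

open MvPolynomial Pool.Agent.W574.SM Pool.Agent.W574.HS

section Comp

variable {σ : Type}

theorem comp_homZ {N : ℤ} {g : MvPolynomial σ ℂ} (h : HomZ N g) (m : ℕ) :
    homogeneousComponent m g = if (m : ℤ) = N then g else 0 := by
  rcases h with rfl | ⟨k, hk, h⟩
  · simp
  · rw [homogeneousComponent_of_mem h, ← hk]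
    by_cases hmk : m = k
    · rw [if_pos hmk, if_pos (by rw [hmk])]
    · rw [if_neg hmk, if_neg (fun h' => hmk (by exact_mod_cast h'))]

/-- an element of `D[s]` for an operator in the class `PO`, evaluated at a linear function of
`s` -/
theorem applyAt_po {ι : Type} [Fintype ι] [DecidableEq ι]
    {Φ : ℤ → Module.End ℂ (MvPolynomial σ ℂ)} (h : PO Φ) (β : ι →₀ ℕ) (d : ℕ) :
    ∃ P : (ι →₀ ℕ) →₀ weyl σ, ∀ (s : ι → ℕ) (g : MvPolynomial σ ℂ),
      applyAt P s g = (∏ j, (s j : ℂ) ^ β j) • Φ ((d * (∑ j, s j + 1) : ℕ) : ℤ) g := by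
  obtain ⟨κ, hκ, p, R, h⟩ := h
  refine ⟨∑ k, tens (monomial β 1 * (p k).sum fun e c => C c * (C (d : ℂ) * (∑ j, X j + 1)) ^ e)
    (R k), fun s g => ?_⟩
  rw [applyAt_sum, h, LinearMap.sum_apply, Finset.smul_sum]
  refine Finset.sum_congr rfl fun k _ => ?_
  rw [applyAt_tens, LinearMap.smul_apply, smul_smul, map_mul, eval_monomial, one_mul]
  congr 2
  · rw [Finsupp.prod_fintype]
    intro i; rw [pow_zero]
  · rw [Polynomial.eval_eq_sum, Polynomial.sum_def, Polynomial.sum_def, map_sum]
    refine Finset.sum_congr rfl fun e _ => ?_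
    simp only [map_mul, map_pow, map_add, map_sum, eval_C, eval_X, map_one]
    push_cast
    ring

end Comp

section Main

variable {n : ℕ} {ι : Type} [Fintype ι] [DecidableEq ι]

theorem isHomogeneous_prod_pow (f : ι → MvPolynomial (Fin (n + 1)) ℂ) (d : ℕ)
    (hf : ∀ j, (f j).IsHomogeneous d) (s : ι → ℕ) :
    (∏ j, f j ^ s j).IsHomogeneous (d * ∑ j, s j) := by
  rw [Finset.mul_sum]
  exact IsHomogeneous.prod _ _ _ fun j _ => (hf j).pow (s j)

/-- **Dehomogenization.** If the `f_j` are forms of the same degree, then a functional equation of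
the ideal `(f_j)` gives a functional equation, with the same `b`, of the dehomogenized ideal. -/
theorem functionalEq_deh (i : Fin (n + 1)) (f : ι → MvPolynomial (Fin (n + 1)) ℂ) (d : ℕ)
    (hf : ∀ j, (f j).IsHomogeneous d) (b : Polynomial ℂ) (hb : IsFunctionalEq f b) :
    IsFunctionalEq (fun j => deh i (f j)) b := by
  classical
  obtain ⟨S, P, hS, hP⟩ := hb
  choose κ hκ w Φ hΦ hq using fun (c : ι → ℤ) (β : ι →₀ ℕ) =>
    gr_weyl i (P c β).1 (P c β).2
  choose PP hPP using fun (c : ι → ℤ) (β : ι →₀ ℕ) (k : κ c β) =>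
    applyAt_po (hΦ c β k) β d
  refine ⟨S, fun c => ∑ β ∈ (P c).support, ∑ k ∈ (Finset.univ : Finset (κ c β)).filter
    (fun k => w c β k = -(d : ℤ)), PP c β k, hS, fun s => ?_⟩
  have h1 := congrArg (fun g => deh i (homogeneousComponent (d * ∑ j, s j) g)) (hP s)
  have h2 : homogeneousComponent (d * ∑ j, s j) (C (b.eval ((∑ j, s j : ℕ) : ℂ)) *
      ∏ j, f j ^ s j) = C (b.eval ((∑ j, s j : ℕ) : ℂ)) * ∏ j, f j ^ s j := by
    rw [homogeneousComponent_C_mul, homogeneousComponent_of_mem
      (isHomogeneous_prod_pow f d hf s), if_pos rfl]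
  rw [h2, map_mul, algHom_C, algebraMap_eq, map_prod] at h1
  simp only [map_pow] at h1
  rw [h1, map_sum, map_sum]
  refine Finset.sum_congr rfl fun c hc => ?_
  rw [applyAt_sum, applyAt, Finsupp.sum, map_sum, map_sum]
  refine Finset.sum_congr rfl fun β _ => ?_
  rw [applyAt_sum]
  -- the argument of the operators
  set m : ℕ := ∏ j, (if c j < 0 then (s j).choose (-c j).toNat else 1) with hm
  have hg : HomZ ((d * (∑ j, s j + 1) : ℕ) : ℤ)
      (C (m : ℂ) * ∏ j, f j ^ ((s j : ℤ) + c j).toNat) := by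
    by_cases hpos : ∀ j, 0 ≤ (s j : ℤ) + c j
    · have hsum : ∑ j, ((s j : ℤ) + c j).toNat = ∑ j, s j + 1 := by
        have : ((∑ j, ((s j : ℤ) + c j).toNat : ℕ) : ℤ) = ((∑ j, s j + 1 : ℕ) : ℤ) := by
          push_cast
          rw [← hS c hc, ← Finset.sum_add_distrib]
          refine Finset.sum_congr rfl fun j _ => ?_
          exact Int.toNat_of_nonneg (hpos j)
        exact_mod_cast this
      refine Or.inr ⟨_, rfl, ?_⟩
      rw [C_mul']
      apply (homogeneousSubmodule _ ℂ _).smul_mem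
      rw [← hsum]
      exact isHomogeneous_prod_pow f d hf _
    · push Not at hpos
      obtain ⟨j, hj⟩ := hpos
      have : m = 0 := by
        refine Finset.prod_eq_zero (Finset.mem_univ j) ?_
        rw [if_pos (by omega), Nat.choose_eq_zero_iff]
        omega
      left
      rw [this, Nat.cast_zero, C_0, zero_mul]
  obtain ⟨q, hq1, hq2⟩ := hq c β _ _ hg
  have hd : deh i (C (m : ℂ) * ∏ j, f j ^ ((s j : ℤ) + c j).toNat) =
      C (m : ℂ) * ∏ j, (deh i (f j)) ^ ((s j : ℤ) + c j).toNat := by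
    rw [map_mul, algHom_C, algebraMap_eq, map_prod]
    simp only [map_pow]
  rw [map_smul, map_smul, hq1, map_sum, map_sum, Finset.smul_sum, Finset.sum_filter]
  refine Finset.sum_congr rfl fun k _ => ?_
  rw [comp_homZ (hq2 k).1, hPP, ← hd, ← (hq2 k).2]
  by_cases hw : w c β k = -(d : ℤ)
  · rw [if_pos hw, if_pos (by rw [hw]; push_cast; ring)]
  · rw [if_neg hw, if_neg, map_zero, smul_zero]
    intro h
    apply hw
    push_cast at h
    linarith

end Main

end Pool.Agent.W574.CN
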