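import Pool.Agent.W574.CN.Deh2
import Pool.Agent.W574.SM.PlaneRoots

set_option autoImplicit false
set_option linter.unusedSectionVars false

/-! # The root `-(n + 1) / d` for `n + 1` algebraically independent forms of degree `d` -/

namespace Pool.Agent.W574.CN

open Pool.Agent.W574.SM

section Gen

variable {n : ℕ} {ι : Type} [Fintype ι] [DecidableEq ι]

theorem constCoeff_aeval {σ τ : Type} (a : σ → MvPowerSeries τ ℂ) (q : MvPolynomial σ ℂ) :
    MvPowerSeries.constantCoeff (MvPolynomial.aeval a q)
      = MvPolynomial.eval (fun i => MvPowerSeries.constantCoeff (a i)) q := by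
  induction q using MvPolynomial.induction_on with
  | C c =>
    rw [MvPolynomial.aeval_C, MvPolynomial.eval_C]
    exact MvPowerSeries.constantCoeff_C c
  | add p q hp hq => rw [map_add, map_add, hp, hq, map_add]
  | mul_X p i hp => rw [map_mul, map_mul, hp, map_mul, MvPolynomial.aeval_X, MvPolynomial.eval_X]

theorem aeval_mul_homog {σ S : Type} [CommRing S] [Algebra ℂ S] (a : σ → S) (r : S)
    (q : MvPolynomial σ ℂ) (d : ℕ) (hq : q.IsHomogeneous d) :
    MvPolynomial.aeval (fun i => r * a i) q = r ^ d * MvPolynomial.aeval a q := by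
  rw [MvPolynomial.aeval_def, MvPolynomial.aeval_def, MvPolynomial.eval₂_eq,
    MvPolynomial.eval₂_eq, Finset.mul_sum]
  refine Finset.sum_congr rfl fun m hm => ?_
  have h1 : m.degree = d := by
    have := hq (MvPolynomial.mem_support_iff.1 hm)
    rwa [Finsupp.degree_eq_weight_one]
  have h2 : ∏ i ∈ m.support, (r * a i) ^ m i = r ^ d * ∏ i ∈ m.support, a i ^ m i := by
    simp only [mul_pow, Finset.prod_mul_distrib]
    rw [Finset.prod_pow_eq_pow_sum, ← h1]
    rfl
  rw [h2]
  ring

/-- the point of the cone -/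
noncomputable def pt (p : Fin (n + 1) → ℂ) : Fin (n + 1) → MvPowerSeries (Fin (n + 1)) ℂ :=
  fun t => MvPowerSeries.C (p t) + (if t = 0 then 0 else MvPowerSeries.X t)

theorem pderiv_pt (p : Fin (n + 1) → ℂ) (s t : Fin (n + 1)) :
    MvPowerSeries.pderiv ℂ s (pt p t) = if t = 0 then 0 else if s = t then 1 else 0 := by
  have h0 : MvPowerSeries.pderiv ℂ s (MvPowerSeries.C (p t) : MvPowerSeries (Fin (n + 1)) ℂ) = 0 :=
    (MvPowerSeries.pderiv ℂ s).map_algebraMap (p t)
  rw [pt, map_add, h0, zero_add]
  by_cases ht : t = 0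
  · rw [if_pos ht, if_pos ht, map_zero]
  · rw [if_neg ht, if_neg ht]
    by_cases hst : s = t
    · rw [if_pos hst, hst, MvPowerSeries.pderiv_X_self]
    · rw [if_neg hst, MvPowerSeries.pderiv_X_of_ne (Ne.symm hst)]

theorem cc_pt (p : Fin (n + 1) → ℂ) :
    (fun t => MvPowerSeries.constantCoeff (pt p t)) = p := by
  funext t
  rw [pt, map_add, MvPowerSeries.constantCoeff_C]
  split_ifs <;> simp

theorem det_cone (p : Fin (n + 1) → ℂ) :
    (Matrix.of fun t i => MvPowerSeries.pderiv ℂ t
      ((MvPowerSeries.X 0 : MvPowerSeries (Fin (n + 1)) ℂ) * pt p i)).det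
      = MvPowerSeries.X 0 ^ n * MvPowerSeries.C (p 0) := by
  have hent : ∀ t i, MvPowerSeries.pderiv ℂ t
      ((MvPowerSeries.X 0 : MvPowerSeries (Fin (n + 1)) ℂ) * pt p i) =
      (if t = 0 then pt p i else 0) + MvPowerSeries.X 0 *
        (if i = 0 then 0 else if t = i then 1 else 0) := by
    intro t i
    have h1 : pt p i * MvPowerSeries.pderiv ℂ t (MvPowerSeries.X 0) =
        if t = 0 then pt p i else 0 := by
      by_cases ht : t = 0
      · rw [if_pos ht, ht, MvPowerSeries.pderiv_X_self, mul_one]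
      · rw [if_neg ht, MvPowerSeries.pderiv_X_of_ne (Ne.symm ht), mul_zero]
    rw [Derivation.leibniz, smul_eq_mul, smul_eq_mul, pderiv_pt, h1]
    exact add_comm _ _
  have hdiag : ∀ t, MvPowerSeries.pderiv ℂ t
      ((MvPowerSeries.X 0 : MvPowerSeries (Fin (n + 1)) ℂ) * pt p t) =
      if t = 0 then MvPowerSeries.C (p 0) else MvPowerSeries.X 0 := by
    intro t
    rw [hent]
    by_cases ht : t = 0
    · subst ht
      rw [if_pos rfl, if_pos rfl, if_pos rfl, mul_zero, add_zero, pt, if_pos rfl, add_zero]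
    · rw [if_neg ht, if_neg ht, if_neg ht, if_pos rfl, mul_one, zero_add]
  rw [Matrix.det_of_isUpperTriangular]
  · change ∏ t, MvPowerSeries.pderiv ℂ t
      ((MvPowerSeries.X 0 : MvPowerSeries (Fin (n + 1)) ℂ) * pt p t) = _
    rw [Finset.prod_congr rfl fun t _ => hdiag t, Fin.prod_univ_succ, if_pos rfl,
      Finset.prod_congr rfl (g := fun _ => MvPowerSeries.X 0), Finset.prod_const,
      Finset.card_univ, Fintype.card_fin]
    · exact mul_comm _ _
    · intro t _
      rw [if_neg (Fin.succ_ne_zero t)]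
  · intro t i hti
    simp only [id] at hti
    rw [Matrix.of_apply, hent, if_neg (fun h => by rw [h] at hti; exact absurd hti (Fin.not_lt_zero i)),
      zero_add]
    by_cases hi : i = 0
    · rw [if_pos hi, mul_zero]
    · rw [if_neg hi, if_neg (fun h => by rw [h] at hti; exact lt_irrefl _ hti), mul_zero]

/-- The matrix of the derivatives of the quotients is invertible. -/
theorem det_quot (d : ℕ) (g : Fin (n + 1) → MvPolynomial (Fin (n + 1)) ℂ)
    (hg : ∀ t, (g t).IsHomogeneous d) (p : Fin (n + 1) → ℂ) (hp0 : p 0 ≠ 0)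
    (hdet : (Matrix.of fun s t => MvPolynomial.eval p (MvPolynomial.pderiv s (g t))).det ≠ 0)
    (W : Matrix (Fin (n + 1)) (Fin (n + 1)) ℂ) (hW0 : ∀ s, W s 0 = if s = 0 then 1 else 0)
    (hW1 : ∀ s t, t ≠ 0 → s ≠ 0 → W s t * MvPolynomial.eval p (g 0) ^ 2 =
      MvPolynomial.eval p (MvPolynomial.pderiv s (g t)) * MvPolynomial.eval p (g 0) -
        MvPolynomial.eval p (g t) * MvPolynomial.eval p (MvPolynomial.pderiv s (g 0)))
    (hW2 : ∀ t, t ≠ 0 → W 0 t = 0) (hg0 : MvPolynomial.eval p (g 0) ≠ 0) : W.det ≠ 0 := by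
  intro hdW
  obtain ⟨a, ha, ha2⟩ := Matrix.exists_mulVec_eq_zero_iff.2 hdW
  have hrow : ∀ s, ∑ t, W s t * a t = 0 := fun s => congrFun ha2 s
  have ha0 : a 0 = 0 := by
    have h1 := hrow 0
    rw [Fin.sum_univ_succ, hW0, if_pos rfl, one_mul, Finset.sum_eq_zero, add_zero] at h1
    · exact h1
    · intro t _
      rw [hW2 _ (Fin.succ_ne_zero t), zero_mul]
  apply hdet
  rw [← Matrix.exists_mulVec_eq_zero_iff]
  set G := fun t => MvPolynomial.eval p (g t) with hG
  set M := fun s t => MvPolynomial.eval p (MvPolynomial.pderiv s (g t)) with hM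
  set c : Fin (n + 1) → ℂ := Fin.cons (-∑ t : Fin n, a t.succ * G t.succ)
    (fun t => a t.succ * G 0) with hc
  have hc0 : c 0 = -∑ t : Fin n, a t.succ * G t.succ := rfl
  have hcs : ∀ t : Fin n, c t.succ = a t.succ * G 0 := fun t => rfl
  have heul : ∀ t, ∑ s, p s * M s t = d * G t := by
    intro t
    have h1 := congrArg (MvPolynomial.eval p) (hg t).sum_X_mul_pderiv
    rw [map_sum, map_nsmul, nsmul_eq_mul] at h1
    rw [← h1]
    refine Finset.sum_congr rfl fun s _ => ?_
    rw [map_mul, MvPolynomial.eval_X]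
  have hs1 : ∀ s, s ≠ 0 → ∑ t, M s t * c t = 0 := by
    intro s hs
    have h1 := hrow s
    rw [Fin.sum_univ_succ, ha0, mul_zero, zero_add] at h1
    rw [Fin.sum_univ_succ, hc0]
    simp only [hcs]
    have h2 : (G 0) ^ 2 * ∑ t : Fin n, W s t.succ * a t.succ = 0 := by rw [h1, mul_zero]
    rw [Finset.mul_sum] at h2
    have h3 : ∀ t : Fin n, (G 0) ^ 2 * (W s t.succ * a t.succ) =
        M s t.succ * (a t.succ * G 0) - M s 0 * (a t.succ * G t.succ) := by
      intro t
      have := hW1 s t.succ (Fin.succ_ne_zero t) hs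
      linear_combination a t.succ * this
    rw [Finset.sum_congr rfl fun t _ => h3 t, Finset.sum_sub_distrib, ← Finset.mul_sum] at h2
    linear_combination h2
  have hval : ∑ t, G t * c t = 0 := by
    rw [Fin.sum_univ_succ, hc0]
    simp only [hcs]
    rw [mul_neg, Finset.mul_sum, ← Finset.sum_neg_distrib, ← Finset.sum_add_distrib]
    refine Finset.sum_eq_zero fun t _ => ?_
    ring
  have hs0 : ∑ t, M 0 t * c t = 0 := by
    have h1 : ∑ s, p s * ∑ t, M s t * c t = 0 := by
      have h2 : ∑ s, p s * ∑ t, M s t * c t = ∑ t, (∑ s, p s * M s t) * c t := by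
        simp only [Finset.mul_sum, Finset.sum_mul]
        rw [Finset.sum_comm]
        refine Finset.sum_congr rfl fun t _ => Finset.sum_congr rfl fun s _ => ?_
        ring
      rw [h2]
      simp only [heul, mul_assoc]
      rw [← Finset.mul_sum, hval, mul_zero]
    have h5 : ∑ s : Fin n, p s.succ * ∑ t, M s.succ t * c t = 0 := by
      refine Finset.sum_eq_zero fun s _ => ?_
      rw [hs1 _ (Fin.succ_ne_zero s), mul_zero]
    rw [Fin.sum_univ_succ, h5, add_zero] at h1
    exact (mul_eq_zero.1 h1).resolve_left hp0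
  refine ⟨c, ?_, ?_⟩
  · intro hc1
    apply ha
    funext t
    refine Fin.cases ha0 (fun t => ?_) t
    have := congrFun hc1 t.succ
    rw [hcs] at this
    exact (mul_eq_zero.1 this).resolve_right hg0
  · funext s
    by_cases hs : s = 0
    · subst hs; exact hs0
    · exact hs1 s hs

/-- **The root `-(n + 1) / d`**, for an ideal generated by forms of degree `d` in `n + 1`
variables, of which `n + 1` are algebraically independent. -/
theorem generic_root_aux (f : ι → MvPolynomial (Fin (n + 1)) ℂ) (d : ℕ) (hd : 0 < d)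
    (hf : ∀ j, (f j).IsHomogeneous d) (b : Polynomial ℂ) (hb : IsFunctionalEq f b)
    (e : Fin (n + 1) → ι) (p : Fin (n + 1) → ℂ) (hp0 : p 0 ≠ 0)
    (hdet : (Matrix.of fun s t =>
      MvPolynomial.eval p (MvPolynomial.pderiv s (f (e t)))).det ≠ 0)
    (hg0 : MvPolynomial.eval p (f (e 0)) ≠ 0) :
    b.eval (-((n : ℂ) + 1) / d) = 0 := by
  classical
  set A := pt p with hA
  set g : MvPolynomial (Fin (n + 1)) ℂ → MvPowerSeries (Fin (n + 1)) ℂ :=
    fun q => MvPolynomial.aeval A q with hgdef
  have hgc : ∀ q, MvPowerSeries.constantCoeff (g q) = MvPolynomial.eval p q := by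
    intro q
    rw [hgdef]
    simp only
    rw [constCoeff_aeval, hA, cc_pt]
  have hgd : ∀ (s : Fin (n + 1)) q, MvPowerSeries.pderiv ℂ s (g q) =
      if s = 0 then 0 else g (MvPolynomial.pderiv s q) := by
    intro s q
    rw [hgdef]
    simp only
    rw [pderiv_aeval, hA]
    simp only [pderiv_pt]
    by_cases hs : s = 0
    · rw [if_pos hs]
      refine Finset.sum_eq_zero fun t _ => ?_
      by_cases ht : t = 0
      · rw [if_pos ht, mul_zero]
      · rw [if_neg ht, if_neg (fun h : s = t => ht (by rw [← h]; exact hs)), mul_zero]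
    · rw [if_neg hs, Finset.sum_eq_single s]
      · rw [if_neg hs, if_pos rfl, mul_one]
      · intro t _ hts
        by_cases ht : t = 0
        · rw [if_pos ht, mul_zero]
        · rw [if_neg ht, if_neg (Ne.symm hts), mul_zero]
      · intro h; exact absurd (Finset.mem_univ s) h
  set ζ : Fin (n + 1) → MvPowerSeries (Fin (n + 1)) ℂ := fun t => MvPowerSeries.X 0 * A t with hζ
  have hζa : ∀ j, MvPolynomial.aeval ζ (f j) = MvPowerSeries.X 0 ^ d * g (f j) := fun j =>
    aeval_mul_homog A (MvPowerSeries.X 0) (f j) d (hf j)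
  set U1 := g (f (e 0)) with hU1
  have hU1c : MvPowerSeries.constantCoeff U1 ≠ 0 := by rw [hU1, hgc]; exact hg0
  have hU1i : U1⁻¹ * U1 = 1 := MvPowerSeries.inv_mul_cancel U1 hU1c
  set lam : Fin (n + 1) → ℂ := fun t =>
    MvPolynomial.eval p (f (e t)) / MvPolynomial.eval p (f (e 0)) with hlam
  set N : Fin (n + 1) → MvPowerSeries (Fin (n + 1)) ℂ := fun t => g (f (e t)) - lam t • U1 with hN
  have hNc : ∀ t, MvPowerSeries.constantCoeff (N t) = 0 := by
    intro t
    rw [hN]
    simp only
    rw [map_sub, hU1, hgc, MvPowerSeries.smul_eq_C_mul, map_mul, MvPowerSeries.constantCoeff_C,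
      hgc, hlam]
    simp only
    rw [div_mul_cancel₀ _ hg0, sub_self]
  set w : Fin (n + 1) → MvPowerSeries (Fin (n + 1)) ℂ := fun t =>
    if t = 0 then MvPowerSeries.X 0 else N t * U1⁻¹ with hw
  have hw0 : w 0 = MvPowerSeries.X 0 := if_pos rfl
  have hw1 : ∀ t, t ≠ 0 → w t = N t * U1⁻¹ := by
    intro t ht
    rw [hw]; simp only; rw [if_neg ht]
  have hwU : ∀ t, t ≠ 0 → U1 * w t = N t := by
    intro t ht
    rw [hw1 t ht]
    linear_combination N t * hU1i
  have hwc : ∀ t, MvPowerSeries.constantCoeff (w t) = 0 := by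
    intro t
    by_cases ht : t = 0
    · rw [ht, hw0, MvPowerSeries.constantCoeff_X]
    · rw [hw1 t ht, map_mul, hNc, zero_mul]
  have hwd : ∀ s t, t ≠ 0 → MvPolynomial.eval p (f (e 0)) *
      MvPowerSeries.constantCoeff (MvPowerSeries.pderiv ℂ s (w t)) =
      MvPowerSeries.constantCoeff (MvPowerSeries.pderiv ℂ s (N t)) := by
    intro s t ht
    have h1 : MvPowerSeries.constantCoeff (MvPowerSeries.pderiv ℂ s (U1 * w t)) =
        MvPowerSeries.constantCoeff (MvPowerSeries.pderiv ℂ s (N t)) := by rw [hwU t ht]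
    rw [Derivation.leibniz, smul_eq_mul, smul_eq_mul, map_add, map_mul
      MvPowerSeries.constantCoeff, map_mul MvPowerSeries.constantCoeff, hwc, zero_mul, add_zero,
      hU1, hgc] at h1
    exact h1
  have hres := rees_coords f b hb 0 ζ n d 0 hd (MvPowerSeries.C (p 0)) U1 1
    (by rw [MvPowerSeries.constantCoeff_C]; exact hp0) hU1c (by simp) (det_cone p) (e 0)
    (fun j => ⟨g (f j), hζa j⟩) (hζa _) 1 (by simp) w hw0 hwc (by
      refine det_quot d (fun t => f (e t)) (fun t => hf _) p hp0 hdet _ ?_ ?_ ?_ hg0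
      · intro s
        rw [Matrix.of_apply, hw0]
        by_cases hs : s = 0
        · rw [if_pos hs, hs, MvPowerSeries.pderiv_X_self, map_one]
        · rw [if_neg hs, MvPowerSeries.pderiv_X_of_ne (Ne.symm hs), map_zero]
      · intro s t ht hs
        rw [Matrix.of_apply]
        have h1 := hwd s t ht
        have h2 : MvPowerSeries.constantCoeff (MvPowerSeries.pderiv ℂ s (N t)) =
            MvPolynomial.eval p (MvPolynomial.pderiv s (f (e t))) -
              lam t * MvPolynomial.eval p (MvPolynomial.pderiv s (f (e 0))) := by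
          rw [hN]
          simp only
          rw [map_sub, Derivation.map_smul, hU1, hgd, hgd, if_neg hs, if_neg hs, map_sub,
            MvPowerSeries.smul_eq_C_mul, map_mul MvPowerSeries.constantCoeff,
            MvPowerSeries.constantCoeff_C, hgc, hgc]
        rw [h2] at h1
        have h3 : lam t * MvPolynomial.eval p (f (e 0)) = MvPolynomial.eval p (f (e t)) := by
          rw [hlam]
          simp only
          rw [div_mul_cancel₀ _ hg0]
        linear_combination MvPolynomial.eval p (f (e 0)) * h1 -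
          MvPolynomial.eval p (MvPolynomial.pderiv s (f (e 0))) * h3
      · intro t ht
        rw [Matrix.of_apply]
        have h1 := hwd 0 t ht
        have h2 : MvPowerSeries.constantCoeff (MvPowerSeries.pderiv ℂ 0 (N t)) = 0 := by
          rw [hN]
          simp only
          rw [map_sub, Derivation.map_smul, hU1, hgd, hgd, if_pos rfl, if_pos rfl, smul_zero,
            sub_self, map_zero]
        rw [h2] at h1
        exact (mul_eq_zero.1 h1).resolve_left hg0) (by
      intro t ht
      right
      refine ⟨Pi.single (e t) 1 - lam t • Pi.single (e 0) 1, ?_⟩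
      have h1 : ∀ (h : ι → MvPowerSeries (Fin (n + 1)) ℂ) (i j : ι) (c : ℂ),
          ∑ k, ((Pi.single i 1 : ι → ℂ) - c • (Pi.single j 1 : ι → ℂ)) k • h k
            = h i - c • h j := by
        intro h i j c
        simp only [Pi.sub_apply, Pi.smul_apply, sub_smul, Finset.sum_sub_distrib]
        congr 1
        · rw [Finset.sum_eq_single i]
          · simp
          · intro k _ hk; rw [Pi.single_eq_of_ne hk, zero_smul]
          · intro h; exact absurd (Finset.mem_univ i) h
        · rw [Finset.sum_eq_single j]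
          · simp
          · intro k _ hk; rw [Pi.single_eq_of_ne hk, smul_zero, zero_smul]
          · intro h; exact absurd (Finset.mem_univ j) h
      rw [h1, hζa, hζa, mul_assoc]
      have h2 := hwU t ht
      rw [hU1] at h2
      rw [h2, hN]
      simp only
      rw [mul_sub, mul_smul_comm])
  have hn' : -((n : ℂ) + 1 + (0 : ℕ)) = -((n : ℂ) + 1) := by push_cast; ring
  rwa [hn'] at hres

/-- **The root `-(n + 1) / d`**, for an ideal generated by forms of degree `d` in `n + 1`
variables, of which `n + 1` are algebraically independent. -/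
theorem generic_root (f : ι → MvPolynomial (Fin (n + 1)) ℂ) (d : ℕ) (hd : 0 < d)
    (hf : ∀ j, (f j).IsHomogeneous d) (b : Polynomial ℂ) (hb : IsFunctionalEq f b)
    (e : Fin (n + 1) → ι)
    (hdet : (Matrix.of fun s t => MvPolynomial.pderiv s (f (e t))).det ≠ 0) :
    b.eval (-((n : ℂ) + 1) / d) = 0 := by
  classical
  have h1 : MvPolynomial.X 0 *
      (Matrix.of fun s t => MvPolynomial.pderiv s (f (e t))).det ≠ 0 :=
    mul_ne_zero (MvPolynomial.X_ne_zero 0) hdet
  obtain ⟨p, hp⟩ : ∃ p, MvPolynomial.eval p (MvPolynomial.X 0 *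
      (Matrix.of fun s t => MvPolynomial.pderiv s (f (e t))).det) ≠ 0 := by
    by_contra hne
    push Not at hne
    exact h1 (MvPolynomial.funext fun p => by rw [hne p, map_zero])
  rw [map_mul, MvPolynomial.eval_X] at hp
  have hp0 := left_ne_zero_of_mul hp
  have hp1 := right_ne_zero_of_mul hp
  have hmap : ∀ e' : Fin (n + 1) → ι, MvPolynomial.eval p
      (Matrix.of fun s t => MvPolynomial.pderiv s (f (e' t))).det =
      (Matrix.of fun s t => MvPolynomial.eval p (MvPolynomial.pderiv s (f (e' t)))).det := by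
    intro e'
    rw [RingHom.map_det]
    rfl
  rw [hmap] at hp1
  -- one of the forms does not vanish at the point
  obtain ⟨t0, ht0⟩ : ∃ t, MvPolynomial.eval p (f (e t)) ≠ 0 := by
    by_contra hne
    push Not at hne
    apply hp1
    rw [← Matrix.exists_vecMul_eq_zero_iff]
    refine ⟨p, fun h => hp0 (by rw [h]; rfl), ?_⟩
    funext t
    have h2 := congrArg (MvPolynomial.eval p) (hf (e t)).sum_X_mul_pderiv
    rw [map_sum, map_nsmul, hne, smul_zero] at h2
    change ∑ s, p s * MvPolynomial.eval p (MvPolynomial.pderiv s (f (e t))) = 0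
    rw [← h2]
    refine Finset.sum_congr rfl fun s _ => ?_
    rw [map_mul, MvPolynomial.eval_X]
  refine generic_root_aux f d hd hf b hb (e ∘ Equiv.swap 0 t0) p hp0 ?_ ?_
  · have h2 : (Matrix.of fun s t => MvPolynomial.eval p (MvPolynomial.pderiv s
        (f ((e ∘ Equiv.swap 0 t0) t)))) = (Matrix.of fun s t => MvPolynomial.eval p
          (MvPolynomial.pderiv s (f (e t)))).submatrix id (Equiv.swap 0 t0) := rfl
    rw [h2, Matrix.det_permute']
    refine mul_ne_zero ?_ hp1
    rcases Int.units_eq_one_or (Equiv.Perm.sign (Equiv.swap 0 t0)) with h | h <;> rw [h] <;> simp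
  · rw [Function.comp_apply, Equiv.swap_apply_left]
    exact ht0

end Gen

end Pool.Agent.W574.CN
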